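import Pool.Agent.E8helper4.FV.Stm

/-!
# FV: the pieces B1 and B3

The four zeros, and the sign changes from the integral identities.
-/

set_option autoImplicit false

open MeasureTheory Set

namespace Pool.Agent.E8helper77.FV

open Pool.Agent.E8helper4.FV (B1 B2 B3 Six)

/-- Rolle for a function with the same value at `x` and `x + π` -/
theorem rolle_pi (w w' : ℝ → ℝ) (hw : ∀ s, HasDerivAt w (w' s) s)
    (hp : ∀ s, w (s + Real.pi) = w s) (x : ℝ) : ∃ c ∈ Ioo x (x + Real.pi), w' c = 0 :=
  exists_hasDerivAt_eq_zero (by linarith [Real.pi_pos])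
    (fun s _ => (hw s).continuousAt.continuousWithinAt) (hp x).symm fun s _ => hw s

/-- a two by two system -/
theorem lin2 (p q r s x y : ℝ) (h : p * s - q * r ≠ 0) :
    ∃ A B : ℝ, x = A * p + B * q ∧ y = A * r + B * s := by
  refine ⟨(x * s - y * q) / (p * s - q * r), (p * y - r * x) / (p * s - q * r), ?_, ?_⟩
  · rw [div_mul_eq_mul_div, div_mul_eq_mul_div, ← add_div, eq_div_iff h]
    ring
  · rw [div_mul_eq_mul_div, div_mul_eq_mul_div, ← add_div, eq_div_iff h]
    ring

theorem t_B1 : B1 := by
  intro P P1 hP _ hper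
  have hw : ∀ s, HasDerivAt (fun s => P s + P (s + Real.pi)) (P1 s + P1 (s + Real.pi)) s :=
    fun s => (hP s).add ((hP (s + Real.pi)).comp_add_const s Real.pi)
  have hp : ∀ s, P (s + Real.pi) + P (s + Real.pi + Real.pi) = P s + P (s + Real.pi) := by
    intro s
    have e : s + Real.pi + Real.pi = s + 2 * Real.pi := by ring
    rw [e, hper, add_comm]
  obtain ⟨s1, -, h1⟩ := rolle_pi _ _ hw hp 0
  obtain ⟨s2, ⟨h3, h4⟩, h2⟩ := rolle_pi _ _ hw hp s1
  have hs : Real.sin (s2 - s1) ≠ 0 := (Real.sin_pos_of_pos_of_lt_pi (by linarith) (by linarith)).ne'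
  have hd : Real.cos s1 * Real.sin s2 - Real.sin s1 * Real.cos s2 ≠ 0 := by
    rw [Real.sin_sub] at hs
    intro h
    apply hs
    linarith
  obtain ⟨A, B, hA, hB⟩ := lin2 _ _ _ _ (P1 s1) (P1 s2) hd
  refine ⟨s1, s2, A, B, h3, h4, hA, hB, ?_, ?_⟩
  · rw [Real.cos_add_pi, Real.sin_add_pi]
    linarith
  · rw [Real.cos_add_pi, Real.sin_add_pi]
    linarith

/-- a continuous periodic function with integral zero takes positive values, if it is not zero -/
theorem pos_of (h : ℝ → ℝ) (hc : Continuous h) (hper : Function.Periodic h (2 * Real.pi))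
    (hi : ∫ s in (0 : ℝ)..(2 * Real.pi), h s = 0) (x : ℝ) (hx : h x ≠ 0) : ∃ u, 0 < h u := by
  by_contra hn
  push Not at hn
  have h1 : ∫ s in (0 : ℝ)..(2 * Real.pi), h s = ∫ s in x..(x + 2 * Real.pi), h s := by
    have := hper.intervalIntegral_add_eq 0 x
    rwa [zero_add] at this
  have h2 : 0 < ∫ s in x..(x + 2 * Real.pi), -h s := by
    refine intervalIntegral.integral_pos (by linarith [Real.pi_pos]) hc.neg.continuousOn
      (fun s _ => by linarith [hn s]) ⟨x, ⟨le_rfl, by linarith [Real.pi_pos]⟩, ?_⟩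
    have := lt_of_le_of_ne (hn x) hx
    linarith
  rw [intervalIntegral.integral_neg, ← h1, hi] at h2
  simp at h2

/-- the integral of the derivative of a periodic function -/
theorem int_der (F F' : ℝ → ℝ) (hF : ∀ s, HasDerivAt F (F' s) s) (hc : Continuous F')
    (hper : F (2 * Real.pi) = F 0) : ∫ s in (0 : ℝ)..(2 * Real.pi), F' s = 0 := by
  rw [intervalIntegral.integral_eq_sub_of_hasDerivAt (fun s _ => hF s) (hc.intervalIntegrable _ _),
    hper, sub_self]

/-- continuous, with integral zero -/
def ZI (F : ℝ → ℝ) : Prop := Continuous F ∧ ∫ s in (0 : ℝ)..(2 * Real.pi), F s = 0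

theorem ZI.add {F G : ℝ → ℝ} (hF : ZI F) (hG : ZI G) : ZI fun s => F s + G s := by
  refine ⟨hF.1.add hG.1, ?_⟩
  rw [intervalIntegral.integral_add (hF.1.intervalIntegrable _ _) (hG.1.intervalIntegrable _ _),
    hF.2, hG.2, add_zero]

theorem ZI.sub {F G : ℝ → ℝ} (hF : ZI F) (hG : ZI G) : ZI fun s => F s - G s := by
  refine ⟨hF.1.sub hG.1, ?_⟩
  rw [intervalIntegral.integral_sub (hF.1.intervalIntegrable _ _) (hG.1.intervalIntegrable _ _),
    hF.2, hG.2, sub_zero]

theorem ZI.smul {F : ℝ → ℝ} (hF : ZI F) (c : ℝ) : ZI fun s => c * F s := by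
  refine ⟨continuous_const.mul hF.1, ?_⟩
  rw [intervalIntegral.integral_const_mul, hF.2, mul_zero]

theorem t_B3 : B3 := by
  intro hB1 hB2 P P1 R R1 hP hP1 hR hR1c hper hRpos hac i1 i2 i3 i4
  have hPc : Continuous P := continuous_iff_continuousAt.2 fun s => (hP s).continuousAt
  have hP1c : Continuous P1 := continuous_iff_continuousAt.2 fun s => (hP1 s).continuousAt
  have hRc : Continuous R := continuous_iff_continuousAt.2 fun s => (hR s).continuousAt
  -- periodicity of the derivatives
  have hperP1 : ∀ s, P1 (s + 2 * Real.pi) = P1 s := by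
    intro s
    have h1 := (hP (s + 2 * Real.pi)).comp_add_const s (2 * Real.pi)
    have h2 : (fun s => P (s + 2 * Real.pi)) = P := funext hper
    rw [h2] at h1
    exact h1.unique (hP s)
  have hperR : ∀ s, R (s + 2 * Real.pi) = R s := by
    intro s
    have h1 := (hP1 (s + 2 * Real.pi)).comp_add_const s (2 * Real.pi)
    have h2 : (fun s => P1 (s + 2 * Real.pi)) = P1 := funext hperP1
    rw [h2] at h1
    have h3 := h1.unique (hP1 s)
    rw [hper] at h3
    linarith
  obtain ⟨s1, s2, A, B, h12, h21, z1, z2, z3, z4⟩ := hB1 P P1 hP hP1c hper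
  by_cases hzero : ∀ s, P1 s = A * Real.cos s + B * Real.sin s
  · exact Or.inl ⟨A, B, hzero⟩
  right
  set f : ℝ → ℝ := fun s => P1 s - (A * Real.cos s + B * Real.sin s) with hf
  set f1 : ℝ → ℝ := fun s => R s - P s - (-(A * Real.sin s) + B * Real.cos s) with hf1
  have d1 : ∀ s, HasDerivAt f (f1 s) s := by
    intro s
    have h := (hP1 s).sub (((Real.hasDerivAt_cos s).const_mul A).add
      ((Real.hasDerivAt_sin s).const_mul B))
    refine h.congr_deriv ?_
    simp only [hf1]
    ring
  have d2 : ∀ s, HasDerivAt f1 (R1 s - f s) s := by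
    intro s
    have h := ((hR s).sub (hP s)).sub ((((Real.hasDerivAt_sin s).const_mul A).neg).add
      ((Real.hasDerivAt_cos s).const_mul B))
    refine h.congr_deriv ?_
    simp only [hf]
    ring
  have hfc : Continuous f := continuous_iff_continuousAt.2 fun s => (d1 s).continuousAt
  have hfper : ∀ s, f (s + 2 * Real.pi) = f s := by
    intro s
    simp only [hf]
    rw [hperP1, Real.cos_add_two_pi, Real.sin_add_two_pi]
  have hne : ∀ c d : ℝ, c < d → ∃ s ∈ Ioo c d, f s ≠ 0 := by
    intro c d hcd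
    by_contra hn
    push Not at hn
    refine hzero (hac A B c d hcd fun s hs => ?_)
    have := hn s hs
    simp only [hf] at this
    linarith
  -- the integral
  set h : ℝ → ℝ := fun s => Real.sin (s - s1) * Real.sin (s - s2) * f s * R s with hh
  have hhc : Continuous h := by
    have a1 : Continuous fun s : ℝ => Real.sin (s - s1) :=
      Real.continuous_sin.comp (continuous_id.sub continuous_const)
    have a2 : Continuous fun s : ℝ => Real.sin (s - s2) :=
      Real.continuous_sin.comp (continuous_id.sub continuous_const)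
    exact ((a1.mul a2).mul hfc).mul hRc
  have hhper : Function.Periodic h (2 * Real.pi) := by
    intro s
    simp only [hh]
    have e1 : s + 2 * Real.pi - s1 = s - s1 + 2 * Real.pi := by ring
    have e2 : s + 2 * Real.pi - s2 = s - s2 + 2 * Real.pi := by ring
    rw [hfper, hperR, e1, e2, Real.sin_add_two_pi, Real.sin_add_two_pi]
  have j1 : ∫ s in (0 : ℝ)..(2 * Real.pi), P1 s * R s = 0 := by
    refine int_der (fun s => (P s ^ 2 + P1 s ^ 2) / 2) _ (fun s => ?_) (hP1c.mul hRc) ?_
    · have h1 := (((hP s).pow 2).add ((hP1 s).pow 2)).div_const 2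
      refine h1.congr_deriv ?_
      simp only [Nat.cast_ofNat, Nat.add_one_sub_one, pow_one]
      ring
    · have e1 := hper 0
      have e2 := hperP1 0
      rw [zero_add] at e1 e2
      simp only [e1, e2]
  have j2 : ∫ s in (0 : ℝ)..(2 * Real.pi), R s * Real.cos s = 0 := by
    refine int_der (fun s => P1 s * Real.cos s + P s * Real.sin s) _ (fun s => ?_)
      (hRc.mul Real.continuous_cos) ?_
    · have h1 := ((hP1 s).mul (Real.hasDerivAt_cos s)).add ((hP s).mul (Real.hasDerivAt_sin s))
      refine h1.congr_deriv ?_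
      ring
    · have e1 := hper 0
      have e2 := hperP1 0
      rw [zero_add] at e1 e2
      simp only [e1, e2, Real.cos_two_pi, Real.sin_two_pi, Real.cos_zero, Real.sin_zero]
  have j3 : ∫ s in (0 : ℝ)..(2 * Real.pi), R s * Real.sin s = 0 := by
    refine int_der (fun s => P1 s * Real.sin s - P s * Real.cos s) _ (fun s => ?_)
      (hRc.mul Real.continuous_sin) ?_
    · have h1 := ((hP1 s).mul (Real.hasDerivAt_sin s)).sub ((hP s).mul (Real.hasDerivAt_cos s))
      refine h1.congr_deriv ?_
      ring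
    · have e1 := hper 0
      have e2 := hperP1 0
      rw [zero_add] at e1 e2
      simp only [e1, e2, Real.cos_two_pi, Real.sin_two_pi, Real.cos_zero, Real.sin_zero]
  have hsum : ∀ s, h s = 1 / 2 * (Real.cos (s2 - s1) * (P1 s * R s)
      - Real.cos (s1 + s2) * (P1 s * R s * Real.cos (2 * s))
      - Real.sin (s1 + s2) * (P1 s * R s * Real.sin (2 * s))
      + (- A * Real.cos (s2 - s1) + A / 2 * Real.cos (s1 + s2) + B / 2 * Real.sin (s1 + s2)) *
        (R s * Real.cos s)
      + (- B * Real.cos (s2 - s1) + A / 2 * Real.sin (s1 + s2) - B / 2 * Real.cos (s1 + s2)) *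
        (R s * Real.sin s)
      + (A / 2 * Real.cos (s1 + s2) - B / 2 * Real.sin (s1 + s2)) * (R s * Real.cos (3 * s))
      + (A / 2 * Real.sin (s1 + s2) + B / 2 * Real.cos (s1 + s2)) * (R s * Real.sin (3 * s))) := by
    intro s
    simp only [hh, hf]
    have e3 : Real.cos (3 * s) = Real.cos (2 * s) * Real.cos s - Real.sin (2 * s) * Real.sin s := by
      rw [← Real.cos_add]
      congr 1
      ring
    have e4 : Real.sin (3 * s) = Real.sin (2 * s) * Real.cos s + Real.cos (2 * s) * Real.sin s := by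
      rw [← Real.sin_add]
      congr 1
      ring
    have e5 : Real.sin (s - s1) * Real.sin (s - s2) =
        1 / 2 * (Real.cos (s2 - s1) - (Real.cos (2 * s) * Real.cos (s1 + s2) +
          Real.sin (2 * s) * Real.sin (s1 + s2))) := by
      rw [← Real.cos_sub]
      have a1 : s2 - s1 = (s - s1) - (s - s2) := by ring
      have a2 : 2 * s - (s1 + s2) = (s - s1) + (s - s2) := by ring
      rw [a1, a2, Real.cos_sub, Real.cos_add]
      ring
    have c1 : Real.cos (2 * s) * Real.cos s * 2 = Real.cos (3 * s) + Real.cos s := by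
      rw [e3, Real.cos_two_mul, Real.sin_two_mul]
      have := Real.sin_sq_add_cos_sq s
      linear_combination (2 * Real.cos s) * this
    have c2 : Real.sin (2 * s) * Real.cos s * 2 = Real.sin (3 * s) + Real.sin s := by
      rw [e4, Real.cos_two_mul, Real.sin_two_mul]
      ring
    have c3 : Real.cos (2 * s) * Real.sin s * 2 = Real.sin (3 * s) - Real.sin s := by
      rw [e4, Real.cos_two_mul, Real.sin_two_mul]
      ring
    have c4 : Real.sin (2 * s) * Real.sin s * 2 = Real.cos s - Real.cos (3 * s) := by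
      rw [e3, Real.cos_two_mul, Real.sin_two_mul]
      have := Real.sin_sq_add_cos_sq s
      linear_combination (2 * Real.cos s) * this
    rw [e5]
    linear_combination (A / 4 * Real.cos (s1 + s2) * R s) * c1 +
      (A / 4 * Real.sin (s1 + s2) * R s) * c2 + (B / 4 * Real.cos (s1 + s2) * R s) * c3 +
      (B / 4 * Real.sin (s1 + s2) * R s) * c4
  have hint : ∫ s in (0 : ℝ)..(2 * Real.pi), h s = 0 := by
    have m2 : Continuous fun s : ℝ => 2 * s := continuous_const.mul continuous_id
    have m3 : Continuous fun s : ℝ => 3 * s := continuous_const.mul continuous_id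
    have q1 : ZI fun s => P1 s * R s := ⟨hP1c.mul hRc, j1⟩
    have q2 : ZI fun s => P1 s * R s * Real.cos (2 * s) :=
      ⟨(hP1c.mul hRc).mul (Real.continuous_cos.comp m2), i3⟩
    have q3 : ZI fun s => P1 s * R s * Real.sin (2 * s) :=
      ⟨(hP1c.mul hRc).mul (Real.continuous_sin.comp m2), i4⟩
    have q4 : ZI fun s => R s * Real.cos s := ⟨hRc.mul Real.continuous_cos, j2⟩
    have q5 : ZI fun s => R s * Real.sin s := ⟨hRc.mul Real.continuous_sin, j3⟩
    have q6 : ZI fun s => R s * Real.cos (3 * s) := ⟨hRc.mul (Real.continuous_cos.comp m3), i1⟩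
    have q7 : ZI fun s => R s * Real.sin (3 * s) := ⟨hRc.mul (Real.continuous_sin.comp m3), i2⟩
    have hz : ZI h := by
      have e : h = _ := funext hsum
      rw [e]
      exact (((((((q1.smul (Real.cos (s2 - s1))).sub (q2.smul (Real.cos (s1 + s2)))).sub
        (q3.smul (Real.sin (s1 + s2)))).add (q4.smul _)).add (q5.smul _)).add (q6.smul _)).add
        (q7.smul _)).smul (1 / 2)
    exact hz.2
  have hint' : ∫ s in (0 : ℝ)..(2 * Real.pi), -h s = 0 := by
    rw [intervalIntegral.integral_neg, hint, neg_zero]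
  obtain ⟨x, hx, hfx⟩ := hne s1 s2 h12
  have x1 : 0 < Real.sin (x - s1) := Real.sin_pos_of_pos_of_lt_pi (by linarith [hx.1])
    (by linarith [hx.2])
  have x2 : Real.sin (x - s2) < 0 := Real.sin_neg_of_neg_of_neg_pi_lt (by linarith [hx.2])
    (by linarith [hx.1])
  have hhx : h x ≠ 0 := mul_ne_zero (mul_ne_zero (mul_ne_zero x1.ne' x2.ne) hfx) (hRpos x).ne'
  obtain ⟨u, hu⟩ := pos_of h hhc hhper hint x hhx
  obtain ⟨v, hv⟩ := pos_of (fun s => -h s) hhc.neg (fun s => congrArg Neg.neg (hhper s)) hint' x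
    (neg_ne_zero.2 hhx)
  refine hB2 f f1 R1 s1 s2 u v d1 d2 hR1c hfper h12 h21 ?_ ?_ ?_ ?_ hne ?_ ?_
  · simp only [hf]
    linarith
  · simp only [hf]
    linarith
  · simp only [hf]
    linarith
  · simp only [hf]
    linarith
  · exact (pos_iff_pos_of_mul_pos hu).2 (hRpos u)
  · have : 0 < -(Real.sin (v - s1) * Real.sin (v - s2) * f v) := by
      have h1 : 0 < -(Real.sin (v - s1) * Real.sin (v - s2) * f v) * R v := by
        have := hv
        simp only [hh] at this
        linarith
      exact (pos_iff_pos_of_mul_pos h1).2 (hRpos v)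
    linarith

end Pool.Agent.E8helper77.FV
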