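import Pool.Agent.E8helper4.FV.Stm

/-!
# FV: the piece C6

Real identities for the support function.
-/

set_option autoImplicit false

open Complex MeasureTheory Set ComplexConjugate

namespace Pool.Agent.E8helper77.FV

open Pool.Agent.E8helper4.FV (Crv dX C6)

theorem der_exp (c : ℂ) (s : ℝ) : HasDerivAt (fun s : ℝ => exp (c * (s : ℂ))) (c * exp (c * s)) s := by
  have h1 : HasDerivAt (fun s : ℝ => c * (s : ℂ)) (c * 1) s :=
    (Complex.ofRealCLM.hasDerivAt (x := s)).const_mul c
  have h2 := h1.cexp
  refine h2.congr_deriv ?_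
  ring

theorem re_der {f : ℝ → ℂ} {f' : ℂ} {s : ℝ} (h : HasDerivAt f f' s) :
    HasDerivAt (fun s => (f s).re) f'.re s := by
  have := (Complex.reCLM.hasFDerivAt.comp_hasDerivAt s h)
  exact this

theorem conj_der {f : ℝ → ℂ} {f' : ℂ} {s : ℝ} (h : HasDerivAt f f' s) :
    HasDerivAt (fun s => conj (f s)) (conj f') s := by
  have := ((Complex.conjCLE : ℂ →L[ℝ] ℂ).hasFDerivAt.comp_hasDerivAt s h)
  exact this

theorem exp_mul_exp (s : ℝ) : exp (-((s : ℂ) * I)) * exp ((s : ℂ) * I) = 1 := by
  rw [← Complex.exp_add, neg_add_cancel, Complex.exp_zero]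

theorem der_ez {ρ : ℝ → ℝ} {z : ℝ → ℂ} (h : Crv ρ z) (s : ℝ) :
    HasDerivAt (fun s : ℝ => exp (-((s : ℂ) * I)) * z s) (-I * (exp (-((s : ℂ) * I)) * z s) + ρ s) s := by
  have h1 := der_exp (-I) s
  have e : ∀ s : ℝ, exp (-I * (s : ℂ)) = exp (-((s : ℂ) * I)) := fun s => by
    congr 1
    ring
  simp only [e] at h1
  refine (h1.mul (h.der s)).congr_deriv ?_
  have h2 := exp_mul_exp s
  linear_combination (ρ s : ℂ) * h2

theorem t_C6 : C6 := by
  intro ρ z h
  have hzc : Continuous z := continuous_iff_continuousAt.2 fun s => (h.der s).continuousAt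
  have hρc : Continuous fun s => (ρ s : ℂ) := Complex.continuous_ofReal.comp h.cont
  refine ⟨fun s => ?_, fun s => ?_, fun h1 h2 => ?_⟩
  · have h1 := re_der ((der_ez h s).const_mul I)
    have e : ∀ s : ℝ, I * (exp (-((s : ℂ) * I)) * z s) = I * exp (-((s : ℂ) * I)) * z s := fun s => by
      ring
    simp only [e] at h1
    refine h1.congr_deriv ?_
    have e2 : I * (-I * (exp (-((s : ℂ) * I)) * z s) + ρ s) =
        exp (-((s : ℂ) * I)) * z s + (ρ s : ℂ) * I := by
      linear_combination (-(exp (-((s : ℂ) * I)) * z s)) * Complex.I_mul_I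
    rw [e2, Complex.add_re, Complex.re_ofReal_mul, Complex.I_re, mul_zero, add_zero]
  · have h1 := re_der (der_ez h s)
    refine h1.congr_deriv ?_
    rw [Complex.add_re, Complex.ofReal_re, neg_mul, Complex.neg_re, ← mul_assoc]
    ring
  · have hexp : ∀ c : ℂ, Continuous fun s : ℝ => exp (c * (s : ℂ)) := fun c =>
      Complex.continuous_exp.comp (continuous_const.mul Complex.continuous_ofReal)
    have e3 : ∀ s : ℝ, exp (-(2 * (s : ℂ) * I)) * dX ρ s = (ρ s : ℂ) * exp ((((-3 * s : ℝ)) : ℂ) * I) := by
      intro s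
      unfold dX
      have : exp ((((-3 * s : ℝ)) : ℂ) * I) = exp (-(2 * (s : ℂ) * I)) * exp (-((s : ℂ) * I)) := by
        rw [← Complex.exp_add]
        congr 1
        push_cast
        ring
      rw [this]
      ring
    -- real and imaginary parts
    have parts : ∀ (f : ℝ → ℝ) (k : ℝ), Continuous f →
        ∫ s in (0 : ℝ)..(2 * Real.pi), (f s : ℂ) * exp ((((-k * s : ℝ)) : ℂ) * I) = 0 →
        ∫ s in (0 : ℝ)..(2 * Real.pi), f s * Real.cos (k * s) = 0 ∧
        ∫ s in (0 : ℝ)..(2 * Real.pi), f s * Real.sin (k * s) = 0 := by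
      intro f k hf h0
      have hi : IntervalIntegrable (fun s : ℝ => (f s : ℂ) * exp ((((-k * s : ℝ)) : ℂ) * I)) volume 0
          (2 * Real.pi) := by
        apply Continuous.intervalIntegrable
        refine (Complex.continuous_ofReal.comp hf).mul (Complex.continuous_exp.comp
          ((Complex.continuous_ofReal.comp (continuous_const.mul continuous_id)).mul continuous_const))
      constructor
      · have h5 := (Complex.reCLM.intervalIntegral_comp_comm hi)
        rw [h0, map_zero] at h5
        refine Eq.trans ?_ h5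
        refine intervalIntegral.integral_congr fun s _ => ?_
        change f s * Real.cos (k * s) = ((f s : ℂ) * exp ((((-k * s : ℝ)) : ℂ) * I)).re
        rw [Complex.re_ofReal_mul, Complex.exp_ofReal_mul_I_re, neg_mul, Real.cos_neg]
      · have h5 := (Complex.imCLM.intervalIntegral_comp_comm hi)
        rw [h0, map_zero] at h5
        have h6 : ∫ s in (0 : ℝ)..(2 * Real.pi), -(f s * Real.sin (k * s)) = 0 := by
          refine Eq.trans ?_ h5
          refine intervalIntegral.integral_congr fun s _ => ?_
          change -(f s * Real.sin (k * s)) = ((f s : ℂ) * exp ((((-k * s : ℝ)) : ℂ) * I)).im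
          rw [Complex.im_ofReal_mul, Complex.exp_ofReal_mul_I_im, neg_mul, Real.sin_neg, mul_neg]
        rw [intervalIntegral.integral_neg, neg_eq_zero] at h6
        exact h6
    have hP1c : Continuous fun s : ℝ => (exp (-((s : ℂ) * I)) * z s).re :=
      continuous_iff_continuousAt.2 fun s => (re_der (der_ez h s)).continuousAt
    simp only [e3] at h1
    obtain ⟨a1, a2⟩ := parts ρ 3 h.cont h1
    -- the second identity
    have e4 : ∀ s : ℝ, (((exp (-((s : ℂ) * I)) * z s).re * ρ s : ℝ) : ℂ) *
        exp ((((-2 * s : ℝ)) : ℂ) * I) =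
        1 / 2 * (z s * exp (-(2 * (s : ℂ) * I)) * dX ρ s) +
        1 / 2 * (conj (z s) * conj ((ρ s : ℂ) * exp ((s : ℂ) * I))) := by
      intro s
      unfold dX
      have c1 : (((exp (-((s : ℂ) * I)) * z s).re : ℝ) : ℂ) =
          (exp (-((s : ℂ) * I)) * z s + exp ((s : ℂ) * I) * conj (z s)) / 2 := by
        have h5 := Complex.add_conj (exp (-((s : ℂ) * I)) * z s)
        have h6 : conj (exp (-((s : ℂ) * I)) * z s) = exp ((s : ℂ) * I) * conj (z s) := by
          rw [map_mul, ← Complex.exp_conj, map_neg, map_mul, Complex.conj_I, Complex.conj_ofReal]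
          congr 2
          ring
        rw [h6] at h5
        rw [h5]
        push_cast
        ring
      have c2 : conj ((ρ s : ℂ) * exp ((s : ℂ) * I)) = (ρ s : ℂ) * exp (-((s : ℂ) * I)) := by
        rw [map_mul, Complex.conj_ofReal, ← Complex.exp_conj, map_mul, Complex.conj_I,
          Complex.conj_ofReal]
        congr 2
        ring
      have c3 : exp ((((-2 * s : ℝ)) : ℂ) * I) = exp (-(2 * (s : ℂ) * I)) := by
        congr 1
        push_cast
        ring
      have c4 : exp ((s : ℂ) * I) * exp (-(2 * (s : ℂ) * I)) = exp (-((s : ℂ) * I)) := by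
        rw [← Complex.exp_add]
        congr 1
        ring
      rw [Complex.ofReal_mul, c1, c2, c3]
      linear_combination ((ρ s : ℂ) * conj (z s) / 2) * c4
    have hcz : ∀ s, HasDerivAt (fun s => conj (z s)) (conj ((ρ s : ℂ) * exp ((s : ℂ) * I))) s :=
      fun s => conj_der (h.der s)
    have hdc : Continuous fun s : ℝ => conj ((ρ s : ℂ) * exp ((s : ℂ) * I)) :=
      Complex.continuous_conj.comp (hρc.mul (Complex.continuous_exp.comp
        (Complex.continuous_ofReal.mul continuous_const)))
    have i1 : ∫ s in (0 : ℝ)..(2 * Real.pi), conj (z s) * conj ((ρ s : ℂ) * exp ((s : ℂ) * I)) = 0 := by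
      have h5 : ∀ s ∈ Set.uIcc (0 : ℝ) (2 * Real.pi), HasDerivAt (fun s => conj (z s) ^ 2 / 2)
          (conj (z s) * conj ((ρ s : ℂ) * exp ((s : ℂ) * I))) s := by
        intro s _
        refine (((hcz s).pow 2).div_const 2).congr_deriv ?_
        simp only [Nat.cast_ofNat, Nat.add_one_sub_one, pow_one]
        ring
      rw [intervalIntegral.integral_eq_sub_of_hasDerivAt h5
        ((((Complex.continuous_conj.comp hzc).mul hdc)).intervalIntegrable _ _)]
      have h6 := h.perz 0
      rw [zero_add] at h6
      simp only [h6, sub_self]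
    have hc2 : Continuous fun s : ℝ => z s * exp (-(2 * (s : ℂ) * I)) * dX ρ s := by
      unfold dX
      refine (hzc.mul (Complex.continuous_exp.comp ?_)).mul (hρc.mul (Complex.continuous_exp.comp ?_))
      · exact ((continuous_const.mul Complex.continuous_ofReal).mul continuous_const).neg
      · exact (Complex.continuous_ofReal.mul continuous_const).neg
    have i2 : ∫ s in (0 : ℝ)..(2 * Real.pi), (((exp (-((s : ℂ) * I)) * z s).re * ρ s : ℝ) : ℂ) *
        exp ((((-2 * s : ℝ)) : ℂ) * I) = 0 := by
      simp only [e4]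
      rw [intervalIntegral.integral_add, intervalIntegral.integral_const_mul,
        intervalIntegral.integral_const_mul, h2, i1]
      · ring
      · exact (continuous_const.mul hc2).intervalIntegrable _ _
      · exact (continuous_const.mul ((Complex.continuous_conj.comp hzc).mul hdc)).intervalIntegrable _ _
    obtain ⟨a3, a4⟩ := parts _ 2 (hP1c.mul h.cont) i2
    exact ⟨a1, a2, a3, a4⟩

end Pool.Agent.E8helper77.FV
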